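import Pool.Agent.Zk46.FD.Asm

/-!
# Palindromes with few digits and at most two prime factors: the final form
-/

set_option autoImplicit false

namespace Pool.Agent.Zk46.FD

open Finset Filter Topology

open Classical in
theorem fin1 (hLEV : S_LEV) (hSQ : S_SQ) (hDIG : S_DIG) (hSV : Pool.Agent.Zk46.NP2.S_SV) (M : ℕ) (hM : 1 ≤ M)
    (hM5 : M ≤ 5) : ∃ c : ℝ, 0 < c ∧ ∃ b₀ : ℕ, ∀ b : ℕ, b₀ ≤ b →
      c * (b : ℝ) ^ (M + 1) / Real.log b ≤
        ((Ico (b ^ (2 * M)) (b ^ (2 * M + 1))).filter fun n : ℕ =>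
          (∀ j ≤ 2 * M, n / b ^ j % b = n / b ^ (2 * M - j) % b) ∧ n.primeFactorsList.length ≤ 2 ∧
            ∀ p : ℕ, p.Prime → p ∣ n → n < p ^ 8).card := by
  obtain ⟨c, hc, b0, hb0⟩ := main hLEV hSQ hDIG hSV M hM hM5
  refine ⟨c, hc, max b0 2, fun b hb => ?_⟩
  obtain ⟨G, hG1, hG2, hG3⟩ := hb0 b ((le_max_left _ _).trans hb)
  have hb2 : 2 ≤ b := (le_max_right _ _).trans hb
  refine hG2.trans ?_
  have hlt : ∀ a ∈ G, ∀ j, a j < b := by
    intro a ha j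
    have h1 := Fintype.mem_piFinset.1 (hG1 ha) j
    rw [mem_Ico] at h1
    exact h1.2
  have hle : G.card ≤ ((Ico (b ^ (2 * M)) (b ^ (2 * M + 1))).filter fun n : ℕ =>
          (∀ j ≤ 2 * M, n / b ^ j % b = n / b ^ (2 * M - j) % b) ∧ n.primeFactorsList.length ≤ 2 ∧
            ∀ p : ℕ, p.Prime → p ∣ n → n < p ^ 8).card := by
    apply Finset.card_le_card_of_injOn (pal b M)
    · intro a ha
      rw [mem_coe] at ha
      obtain ⟨d1, d2, d3⟩ := hDIG b M hb2 hM a (hlt a ha)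
      have h0 := Fintype.mem_piFinset.1 (hG1 ha) 0
      rw [mem_Ico] at h0
      rw [mem_coe, mem_filter, mem_Ico]
      refine ⟨⟨d3 h0.1, d2⟩, ?_, (hG3 a ha).1, (hG3 a ha).2⟩
      intro j hj
      by_cases hjM : j ≤ M
      · rw [(d1 j hjM).1, (d1 j hjM).2]
      · have e1 := d1 (2 * M - j) (by omega)
        have e2 : 2 * M - (2 * M - j) = j := by omega
        rw [e2] at e1
        rw [e1.1, e1.2]
    · intro a ha a' ha' he
      rw [mem_coe] at ha ha'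
      obtain ⟨d1, _, _⟩ := hDIG b M hb2 hM a (hlt a ha)
      obtain ⟨d1', _, _⟩ := hDIG b M hb2 hM a' (hlt a' ha')
      funext j
      have e1 := (d1 j (by omega)).1
      have e2 := (d1' j (by omega)).1
      rw [he] at e1
      rw [← e1, e2]
  exact_mod_cast hle

open Classical in
theorem fin2 (M : ℕ) (hM : 1 ≤ M) (h : ∃ c : ℝ, 0 < c ∧ ∃ b₀ : ℕ, ∀ b : ℕ, b₀ ≤ b →
      c * (b : ℝ) ^ (M + 1) / Real.log b ≤
        ((Ico (b ^ (2 * M)) (b ^ (2 * M + 1))).filter fun n : ℕ =>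
          (∀ j ≤ 2 * M, n / b ^ j % b = n / b ^ (2 * M - j) % b) ∧ n.primeFactorsList.length ≤ 2 ∧
            ∀ p : ℕ, p.Prime → p ∣ n → n < p ^ 8).card) (b : ℕ) (hb : 2 ≤ b) :
    {n : ℕ | ∃ k : ℕ, 1 ≤ k ∧ ((b ^ k) ^ (2 * M) ≤ n ∧ n < (b ^ k) ^ (2 * M + 1) ∧
      (∀ j ≤ 2 * M, n / (b ^ k) ^ j % b ^ k = n / (b ^ k) ^ (2 * M - j) % b ^ k) ∧
        n.primeFactorsList.length ≤ 2 ∧ ∀ p : ℕ, p.Prime → p ∣ n → n < p ^ 8)}.Infinite := by
  obtain ⟨c, hc, b0, hb0⟩ := h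
  rw [Set.infinite_iff_exists_gt]
  intro N
  · set k : ℕ := max (max b0 (N + 1)) 1 with hk
    have hk1 : 1 ≤ k := le_max_right _ _
    have hkb : k < b ^ k := Nat.lt_pow_self (by omega)
    have h1 := hb0 (b ^ k) (((le_max_left _ _).trans (le_max_left _ _)).trans hkb.le)
    have hBR : (1 : ℝ) < ((b ^ k : ℕ) : ℝ) := by
      exact_mod_cast (lt_of_le_of_lt hk1 hkb)
    have hpos : 0 < c * ((b ^ k : ℕ) : ℝ) ^ (M + 1) / Real.log ((b ^ k : ℕ) : ℝ) := by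
      have := Real.log_pos hBR
      positivity
    have h2 := lt_of_lt_of_le hpos h1
    have h3 : 0 < ((Ico ((b ^ k) ^ (2 * M)) ((b ^ k) ^ (2 * M + 1))).filter fun n : ℕ =>
          (∀ j ≤ 2 * M, n / (b ^ k) ^ j % (b ^ k) = n / (b ^ k) ^ (2 * M - j) % (b ^ k)) ∧
            n.primeFactorsList.length ≤ 2 ∧ ∀ p : ℕ, p.Prime → p ∣ n → n < p ^ 8).card := by exact_mod_cast h2
    obtain ⟨n, hn⟩ := Finset.card_pos.1 h3
    rw [mem_filter, mem_Ico] at hn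
    refine ⟨n, ⟨k, hk1, hn.1.1, hn.1.2, hn.2⟩, ?_⟩
    calc N < k := by
          have : N + 1 ≤ k := (le_max_right _ _).trans (le_max_left _ _)
          omega
      _ ≤ b ^ k := hkb.le
      _ = (b ^ k) ^ 1 := (pow_one _).symm
      _ ≤ (b ^ k) ^ (2 * M) := Nat.pow_le_pow_right (by omega) (by omega)
      _ ≤ n := hn.1.1

end Pool.Agent.Zk46.FD
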