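import Pool.Agent.Zk46.FD.Asm3

/-!
# Palindromes with few digits in prescribed intervals and at most two prime factors: the final form
-/

set_option autoImplicit false

namespace Pool.Agent.Zk46.FD

open Finset Filter Topology

open Classical in
theorem boxes (hLEV : S_LEV2) (hSQ : S_SQ) (hDIG : S_DIG) (hSV : Pool.Agent.Zk46.NP2.S_SV) (M : ℕ) (hM : 1 ≤ M)
    (hM5 : M ≤ 5) : ∃ η : ℝ, 0 < η ∧ ∃ c : ℝ, 0 < c ∧ ∃ b₀ : ℕ, ∀ b : ℕ, b₀ ≤ b → ∀ l B : Fin (M + 1) → ℕ,
      (∀ j, 1 ≤ l j ∧ (b : ℝ) ^ (1 - η) ≤ B j ∧ l j + B j ≤ b) →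
      c * (∏ j, (B j : ℝ)) / Real.log b ≤
        ((Ico (b ^ (2 * M)) (b ^ (2 * M + 1))).filter fun n : ℕ =>
          (∀ j ≤ 2 * M, n / b ^ j % b = n / b ^ (2 * M - j) % b) ∧
          (∀ j : Fin (M + 1), l j ≤ n / b ^ (j : ℕ) % b ∧ n / b ^ (j : ℕ) % b < l j + B j) ∧
          n.primeFactorsList.length ≤ 2 ∧ ∀ p : ℕ, p.Prime → p ∣ n → n < p ^ 8).card := by
  obtain ⟨η, hη, c, hc, b0, hb0⟩ := main3 hLEV hSQ hDIG hSV M hM hM5
  refine ⟨η, hη, c / 2 ^ (M + 1), by positivity, max b0 2, fun b hb l B hl => ?_⟩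
  have hb2 : 2 ≤ b := (le_max_right _ _).trans hb
  have hbR : (2 : ℝ) ≤ b := by exact_mod_cast hb2
  have hlb : 0 < Real.log b := Real.log_pos (by linarith)
  have hUpos : (0 : ℝ) < (b : ℝ) ^ (1 - η) := by positivity
  set B0 : ℕ := ⌊(b : ℝ) ^ (1 - η)⌋₊ with hB0
  have hB0u : (B0 : ℝ) ≤ (b : ℝ) ^ (1 - η) := Nat.floor_le hUpos.le
  by_cases hB00 : B0 = 0
  · -- this does not happen for large `b`, but it is harmless
    have hne : c * ((b : ℝ) ^ (1 - η)) ^ (M + 1) / Real.log b ≤ 0 := by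
      obtain ⟨G, hG1, hG2, hG3⟩ := hb0 b ((le_max_left _ _).trans hb) (fun _ => 1) (fun j => ⟨le_rfl, by
        rw [← hB0, hB00]
        omega⟩)
      have hG : G = ∅ := by
        by_contra hne
        obtain ⟨a, ha⟩ := Finset.nonempty_iff_ne_empty.2 hne
        have h1 := hG1 a ha 0
        rw [← hB0, hB00] at h1
        omega
      rw [hG] at hG2
      simpa using hG2
    exfalso
    have : 0 < c * ((b : ℝ) ^ (1 - η)) ^ (M + 1) / Real.log b := by positivity
    linarith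
  have hB01 : 1 ≤ B0 := by omega
  have hBB : ∀ j, B0 ≤ B j := by
    intro j
    have h1 := (hl j).2.1
    have h2 : (B0 : ℝ) ≤ B j := hB0u.trans h1
    exact_mod_cast h2
  set P : Finset (Fin (M + 1) → ℕ) := Fintype.piFinset fun j => range (B j / B0) with hP
  have hPj : ∀ i ∈ P, ∀ j, (i j + 1) * B0 ≤ B j := by
    intro i hi j
    have h1 := Fintype.mem_piFinset.1 hi j
    rw [mem_range] at h1
    calc (i j + 1) * B0 ≤ (B j / B0) * B0 := Nat.mul_le_mul_right _ h1
      _ ≤ B j := Nat.div_mul_le_self _ _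
  have hex : ∀ i : Fin (M + 1) → ℕ, ∃ G : Finset (Fin (M + 1) → ℕ), i ∈ P →
      ((∀ a ∈ G, ∀ j, l j + i j * B0 ≤ a j ∧ a j < l j + i j * B0 + B0) ∧
      c * ((b : ℝ) ^ (1 - η)) ^ (M + 1) / Real.log b ≤ G.card ∧ ∀ a ∈ G,
        (pal b M a).primeFactorsList.length ≤ 2 ∧ ∀ p : ℕ, p.Prime → p ∣ pal b M a → pal b M a < p ^ 8) := by
    intro i
    by_cases hi : i ∈ P
    · obtain ⟨G, hG1, hG2, hG3⟩ := hb0 b ((le_max_left _ _).trans hb) (fun j => l j + i j * B0) (fun j => by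
        have h1 := hPj i hi j
        have h2 := (hl j).1
        have h3 := (hl j).2.2
        rw [← hB0]
        constructor
        · omega
        · have : (i j + 1) * B0 = i j * B0 + B0 := by ring
          omega)
      exact ⟨G, fun _ => ⟨hG1, hG2, hG3⟩⟩
    · exact ⟨∅, fun h => absurd h hi⟩
  choose G hG using hex
  have hdisj : (P : Set (Fin (M + 1) → ℕ)).PairwiseDisjoint G := by
    intro i hi i' hi' hne
    rw [Function.onFun, Finset.disjoint_left]
    intro a ha ha'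
    apply hne
    funext j
    have h1 := (hG i hi).1 a ha j
    have h2 := (hG i' hi').1 a ha' j
    have e1 : (a j - l j) / B0 = i j := by
      rw [Nat.div_eq_iff hB01]
      constructor
      · have : i j * B0 + l j ≤ a j := by omega
        omega
      · omega
    have e2 : (a j - l j) / B0 = i' j := by
      rw [Nat.div_eq_iff hB01]
      constructor
      · omega
      · omega
    rw [← e1, e2]
  have hcard : (P.card : ℝ) * (c * ((b : ℝ) ^ (1 - η)) ^ (M + 1) / Real.log b) ≤ ((P.biUnion G).card : ℝ) := by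
    rw [card_biUnion hdisj]
    push_cast
    rw [← nsmul_eq_mul, ← sum_const]
    exact sum_le_sum fun i hi => (hG i hi).2.1
  have hPc : ∏ j, ((B j : ℝ) / 2) ≤ (P.card : ℝ) * ((b : ℝ) ^ (1 - η)) ^ (M + 1) := by
    rw [hP, Fintype.card_piFinset]
    push_cast
    have e1 : ((b : ℝ) ^ (1 - η)) ^ (M + 1) = ∏ _j : Fin (M + 1), (b : ℝ) ^ (1 - η) := by
      rw [prod_const, card_univ, Fintype.card_fin]
    rw [e1, ← prod_mul_distrib]
    apply prod_le_prod (fun j _ => by positivity)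
    intro j _
    rw [card_range]
    have h1 : B j < B0 * (B j / B0 + 1) := Nat.lt_mul_div_succ _ hB01
    have h2 : 1 ≤ B j / B0 := (Nat.one_le_div_iff hB01).2 (hBB j)
    have h3 : (B j : ℝ) ≤ B0 * (((B j / B0 : ℕ) : ℝ) + 1) := by exact_mod_cast h1.le
    have h4 : (1 : ℝ) ≤ ((B j / B0 : ℕ) : ℝ) := by exact_mod_cast h2
    have h5 : (0 : ℝ) < B0 := by exact_mod_cast hB01
    calc (B j : ℝ) / 2 ≤ B0 * (((B j / B0 : ℕ) : ℝ) + 1) / 2 := by linarith
      _ ≤ B0 * ((B j / B0 : ℕ) : ℝ) := by nlinarith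
      _ ≤ (b : ℝ) ^ (1 - η) * ((B j / B0 : ℕ) : ℝ) := by gcongr
      _ = _ := mul_comm _ _
  have hlt : ∀ a ∈ P.biUnion G, ∀ j, l j ≤ a j ∧ a j < l j + B j := by
    intro a ha j
    rw [mem_biUnion] at ha
    obtain ⟨i, hi, ha⟩ := ha
    have h1 := (hG i hi).1 a ha j
    have h2 := hPj i hi j
    have h3 : (i j + 1) * B0 = i j * B0 + B0 := by ring
    omega
  have hltb : ∀ a ∈ P.biUnion G, ∀ j, a j < b := by
    intro a ha j
    have h1 := (hlt a ha j).2
    have h2 := (hl j).2.2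
    omega
  have hle : (P.biUnion G).card ≤ ((Ico (b ^ (2 * M)) (b ^ (2 * M + 1))).filter fun n : ℕ =>
          (∀ j ≤ 2 * M, n / b ^ j % b = n / b ^ (2 * M - j) % b) ∧
          (∀ j : Fin (M + 1), l j ≤ n / b ^ (j : ℕ) % b ∧ n / b ^ (j : ℕ) % b < l j + B j) ∧
          n.primeFactorsList.length ≤ 2 ∧ ∀ p : ℕ, p.Prime → p ∣ n → n < p ^ 8).card := by
    apply Finset.card_le_card_of_injOn (pal b M)
    · intro a ha
      rw [mem_coe] at ha
      obtain ⟨d1, d2, d3⟩ := hDIG b M hb2 hM a (hltb a ha)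
      have h0 : 1 ≤ a 0 := (hl 0).1.trans (hlt a ha 0).1
      have ha' := ha
      rw [mem_biUnion] at ha'
      obtain ⟨i, hi, hai⟩ := ha'
      rw [mem_coe, mem_filter, mem_Ico]
      refine ⟨⟨d3 h0, d2⟩, ?_, ?_, ((hG i hi).2.2 a hai).1, ((hG i hi).2.2 a hai).2⟩
      · intro j hj
        by_cases hjM : j ≤ M
        · rw [(d1 j hjM).1, (d1 j hjM).2]
        · have e1 := d1 (2 * M - j) (by omega)
          have e2 : 2 * M - (2 * M - j) = j := by omega
          rw [e2] at e1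
          rw [e1.1, e1.2]
      · intro j
        rw [(d1 j (by omega)).1]
        exact hlt a ha j
    · intro a ha a' ha' he
      rw [mem_coe] at ha ha'
      obtain ⟨d1, _, _⟩ := hDIG b M hb2 hM a (hltb a ha)
      obtain ⟨d1', _, _⟩ := hDIG b M hb2 hM a' (hltb a' ha')
      funext j
      have e1 := (d1 j (by omega)).1
      have e2 := (d1' j (by omega)).1
      rw [he] at e1
      rw [← e1, e2]
  refine le_trans ?_ (hcard.trans (by exact_mod_cast hle))
  rw [prod_div_distrib, prod_const, card_univ, Fintype.card_fin] at hPc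
  calc c / 2 ^ (M + 1) * (∏ j, (B j : ℝ)) / Real.log b = c * ((∏ j, (B j : ℝ)) / 2 ^ (M + 1)) / Real.log b := by ring
    _ ≤ c * ((P.card : ℝ) * ((b : ℝ) ^ (1 - η)) ^ (M + 1)) / Real.log b := by gcongr
    _ = _ := by ring

end Pool.Agent.Zk46.FD
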