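import Mathlib

/-!
# Palindromes with few digits and at most two prime factors (helper46): definitions and modules

`L(v) = ∑ c_j v_j` is a linear form with coprime coefficients.  The vectors `w` have the entries `w j k < s`, `j < d`, `k < r`;
the digit number `j` is `1 + ∑_k w j k`.  A modulus `q` is good if no nonzero multiple of `c / q` is close to an integral vector;
for good `q` the Fourier series of the smooth weight (`r`-fold convolution) shows the equidistribution.  For the other `q` the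
short vectors of the lattice `q ∣ L(v)` are in a hyperplane, and these `q` are counted by the divisors of the numbers `L(v)`.
-/

set_option autoImplicit false

namespace Pool.Agent.Zk46.FD

open Finset

/-- the vectors `w` -/
def W (d r s : ℕ) : Finset (Fin d → Fin r → ℕ) :=
  Fintype.piFinset fun _ => Fintype.piFinset fun _ => range s

/-- the value `n0 + ∑_j c_j ∑_k w j k` -/
def val {d r : ℕ} (c : Fin d → ℕ) (n0 : ℕ) (w : Fin d → Fin r → ℕ) : ℕ := n0 + ∑ j, c j * ∑ k, w j k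

/-- the number of the `w` for which `q` divides the value -/
noncomputable def cnt {d : ℕ} (c : Fin d → ℕ) (n0 r s q : ℕ) : ℝ :=
  ((W d r s).filter fun w => q ∣ val c n0 w).card

/-- good moduli -/
def Good {d : ℕ} (c : Fin d → ℕ) (q H : ℕ) : Prop :=
  ∀ a : ℕ, 1 ≤ a → a < q → ∃ j, ∀ m : ℤ, (q : ℤ) ≤ H * |(a : ℤ) * c j - m * q|

/-- the coefficients have no common divisor -/
def Prim {d : ℕ} (c : Fin d → ℕ) : Prop := ∀ g : ℕ, (∀ j, g ∣ c j) → g = 1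

/-- the lattice of the modulus `q` -/
def InL {d : ℕ} (c : Fin d → ℕ) (q : ℕ) (v : Fin d → ℤ) : Prop := (q : ℤ) ∣ ∑ j, (c j : ℤ) * v j

/-- the maximum norm -/
def nm {d : ℕ} (v : Fin d → ℤ) : ℕ := univ.sup fun j => (v j).natAbs

/-- module GOOD: `|cnt - s^(rd)/q| ≤ (1/q) ∑_{0<a<q} ∏_j |∑_{x<s} e(a c_j x/q)|^r`, and each factor is at most `s`, and one of them
is at most `1 / (2 ‖a c_j / q‖) ≤ H`. -/
def S_GOOD : Prop := ∀ (d r s : ℕ) (c : Fin d → ℕ) (n0 q H : ℕ), 1 ≤ q → 1 ≤ s → 1 ≤ H → Good c q H →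
  |cnt c n0 r s q - (s : ℝ) ^ (r * d) / q| ≤ (s : ℝ) ^ (r * d) * ((H : ℝ) / s) ^ r

/-- module HYP: if `a` violates `Good`, take `t_j = a c_j - m_j q`, `H |t_j| < q`; then `t ≠ 0`, as the `c_j` are coprime, and
`∑ t_j v_j` is divisible by `q` and smaller than `q` in absolute value. -/
def S_HYP : Prop := ∀ (d : ℕ) (c : Fin d → ℕ) (q H : ℕ), 1 ≤ d → 1 ≤ q → 1 ≤ H → Prim c → ¬ Good c q H →
  ∃ t : Fin d → ℤ, t ≠ 0 ∧ ∀ v : Fin d → ℤ, InL c q v → d * nm v ≤ H → ∑ j, t j * v j = 0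

/-- module CUBE: points in a cube of side `h`, in a hyperplane, with distances at least `R`.  If `|t_k|` is maximal, then
`|u_k| ≤ ∑_{i ≠ k} |u_i|` for the differences `u`, so the map `x ↦ (⌊x_i / ρ⌋)_{i ≠ k}`, `ρ = ⌈R / d⌉`, is injective. -/
def S_CUBE : Prop := ∀ (d : ℕ) (t : Fin d → ℤ) (R h : ℕ), t ≠ 0 → 1 ≤ R → R ≤ h → ∀ S : Finset (Fin d → ℤ),
  (∀ x ∈ S, ∀ y ∈ S, nm (x - y) < h) → (∀ x ∈ S, ∀ y ∈ S, ∑ j, t j * (x j - y j) = 0) →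
  (∀ x ∈ S, ∀ y ∈ S, x ≠ y → R ≤ nm (x - y)) → (S.card : ℝ) ≤ (3 * d * h / R : ℝ) ^ (d - 1)

/-- module BADQ, from HYP and CUBE: (i) the box `[0, r s)^d` is divided into at most `(r s / h + 1)^d` cubes of side `h` (a digit
vector comes from at most `s ^ ((r - 1) d)` vectors `w`); (ii) `h ^ d` vectors of `[0, h) ^ d`, `q` residue classes. -/
def S_BADQ : Prop := ∀ (d r s : ℕ) (c : Fin d → ℕ) (n0 q H h R : ℕ), 1 ≤ d → 1 ≤ r → 1 ≤ s → 1 ≤ q → 1 ≤ h → d * h ≤ H →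
  Prim c → ¬ Good c q H → 1 ≤ R → R ≤ h → (∀ v : Fin d → ℤ, v ≠ 0 → InL c q v → R ≤ nm v) →
  cnt c n0 r s q ≤ (s : ℝ) ^ ((r - 1) * d) * (((r : ℝ) * s / h + 1) ^ d * (3 * d * h / R : ℝ) ^ (d - 1)) ∧
  (h : ℝ) ^ d ≤ q * (3 * d * h / R : ℝ) ^ (d - 1)

/-- module PIG: Dirichlet's pigeonhole principle, `[0, m]^d` with `m ^ d ≤ q < (m + 1) ^ d` -/
def S_PIG : Prop := ∀ (d : ℕ) (c : Fin d → ℕ) (q : ℕ), 1 ≤ d → 1 ≤ q →
  ∃ v : Fin d → ℤ, v ≠ 0 ∧ InL c q v ∧ nm v ^ d ≤ q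

/-- module SHELL: at most `2 d (2 k + 1) ^ (d - 1)` vectors have norm `k` -/
def S_SHELL : Prop := ∀ d m : ℕ, 1 ≤ d →
  ∑ v ∈ (Fintype.piFinset fun _ : Fin d => Icc (-(m : ℤ)) m).filter (fun v => v ≠ 0), (1 / (nm v : ℝ) ^ (d - 1)) ≤
    2 * d * 3 ^ (d - 1) * m

/-! ### palindromes -/

/-- the coefficient of the digit number `j ≤ M` in the palindromes with `2 M + 1` digits -/
def cf (b M : ℕ) (j : Fin (M + 1)) : ℕ := if (j : ℕ) < M then b ^ (j : ℕ) + b ^ (2 * M - j) else b ^ M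

/-- the palindrome with the digits `a_0, …, a_M, …, a_0` -/
def pal (b M : ℕ) (a : Fin (M + 1) → ℕ) : ℕ := ∑ j, cf b M j * a j

/-- module NV: the form does not vanish at short vectors (induction on the number of leading zeros, modulo `b ^ (j + 1)`), and
its coefficients are coprime (`b ^ M` and `1 + b ^ (2 M)`). -/
def S_NV : Prop := ∀ b M : ℕ, 2 ≤ b → 1 ≤ M →
  (∀ v : Fin (M + 1) → ℤ, v ≠ 0 → nm v < b → ∑ j, (cf b M j : ℤ) * v j ≠ 0) ∧ Prim (cf b M)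

/-- module DIG: the digits -/
def S_DIG : Prop := ∀ b M : ℕ, 2 ≤ b → 1 ≤ M → ∀ a : Fin (M + 1) → ℕ, (∀ j, a j < b) →
  (∀ j : ℕ, ∀ hj : j ≤ M, pal b M a / b ^ j % b = a ⟨j, by omega⟩ ∧ pal b M a / b ^ (2 * M - j) % b = a ⟨j, by omega⟩) ∧
    pal b M a < b ^ (2 * M + 1) ∧ (1 ≤ a 0 → b ^ (2 * M) ≤ pal b M a)

/-- the palindromes with nonzero digits (as digit vectors) -/
def A (b M : ℕ) : Finset (Fin (M + 1) → ℕ) := Fintype.piFinset fun _ => Ico 1 b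

/-- module LEV (assembly of GOOD, BADQ, PIG, SHELL, NV and the divisor bound): the level of distribution -/
def S_LEV : Prop := ∀ M : ℕ, 1 ≤ M → ∀ ε : ℝ, 0 < ε → ε < 1 → ∃ r : ℕ, 1 ≤ r ∧ ∃ δ : ℝ, 0 < δ ∧ ∃ b0 : ℕ, ∀ b : ℕ, b0 ≤ b →
  ∀ n0 : ℕ, ∑ q ∈ Icc 1 ⌊(b : ℝ) ^ ((M : ℝ) + 1 - ε)⌋₊,
    |cnt (cf b M) n0 r ((b - 1) / r) q - (((b - 1) / r : ℕ) : ℝ) ^ (r * (M + 1)) / q| ≤
      (((b - 1) / r : ℕ) : ℝ) ^ (r * (M + 1)) * (b : ℝ) ^ (-δ)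

/-! ### squares -/

open Classical in
/-- module SQ0: the primes which divide `b` -/
def S_SQ0 : Prop := ∀ (M : ℕ) (θ : ℝ), 1 ≤ M → 0 < θ → ∃ C : ℝ, ∀ b : ℕ, 2 ≤ b →
  (((A b M).filter fun a => ∃ p : ℕ, p.Prime ∧ p ∣ b ∧ (b : ℝ) ^ θ ≤ p ∧ p ∣ pal b M a).card : ℝ) ≤
    C * (b : ℝ) ^ ((M : ℝ) + 1 - θ)

/-- module SQ1: fix the `k` outer digits; then `n` is in an interval of length `b ^ (2 M + 1 - k)` and in one class modulo
`p ^ 2 b ^ k`. -/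
def S_SQ1 : Prop := ∀ b M k p : ℕ, 2 ≤ b → 1 ≤ M → k ≤ M → 1 ≤ p → p.Coprime b →
  (((A b M).filter fun a => p ^ 2 ∣ pal b M a).card : ℝ) ≤ (b : ℝ) ^ (2 * M + 1 - k) / (p : ℝ) ^ 2 + (b : ℝ) ^ k

/-- `p ^ 2 δ` is not close to a multiple of `b`, for `1 ≤ δ ≤ Δ` -/
def Far (b g Δ p : ℕ) : Prop := ∀ δ : ℕ, 1 ≤ δ → δ ≤ Δ → ∀ m : ℤ, (g : ℤ) ≤ |(p : ℤ) ^ 2 * δ - m * b|

/-- module SQ2: fix the `k` outer digits and the part `[i g, (i + 1) g)` of the digit number `k`; then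
`n = n₀ + p ^ 2 b ^ k j` with `j` in an interval with at most `g b ^ (2 M - 2 k) / p ^ 2 + 1` elements, and the digit number `k`
of `n`, on the right, is `n₀ / b ^ k + p ^ 2 j` modulo `b`, so that two such `j` have a distance larger than `Δ`. -/
def S_SQ2 : Prop := ∀ b M k p g Δ : ℕ, 2 ≤ b → k < M → 1 ≤ p → p.Coprime b → 1 ≤ g → g ≤ b → 1 ≤ Δ → Far b g Δ p →
  (((A b M).filter fun a => p ^ 2 ∣ pal b M a).card : ℝ) ≤
    (b : ℝ) ^ k * ((b : ℝ) / g + 1) * (g * (b : ℝ) ^ (2 * M - 2 * k) / ((p : ℝ) ^ 2 * Δ) + 2)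

open Classical in
/-- module SQ3: for each `δ` there are at most `2 g + Δ` residues `ρ` with `ρ δ` in `(-g, g)` modulo `b`, and `x ^ 2 = ρ` has at most
`2 τ(b) ^ 2` solutions `x` prime to `b` modulo `b` (`x = y z`, `z ^ 2 = 1`, `b ∣ (z - 1) (z + 1)`). -/
def S_SQ3 : Prop := ∀ b g Δ P : ℕ, 2 ≤ b → 1 ≤ g → 1 ≤ Δ →
  (((range P).filter fun p => p.Coprime b ∧ ¬ Far b g Δ p).card : ℝ) ≤
    ((P : ℝ) / b + 1) * (Δ * (2 * g + Δ)) * (2 * (b.divisors.card : ℝ) ^ 2)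

open Classical in
/-- module SQ (assembly of SQ0–SQ3). `ε' = min θ (1/32)`, `Δ = ⌊b^(1/4)⌋`, `g = ⌊b^(1/2)⌋`; for `b^(c+ε') ≤ p ≤ b^(c+1-ε')`,
`0 ≤ c ≤ M`, SQ1 with `k = M - c`; for `b^(c-ε') ≤ p ≤ b^(c+ε')`, `1 ≤ c ≤ M`, SQ2 with `k = M - c` if `Far`, and otherwise
SQ1 with `k = M - c` and SQ3; `∑_{p ≥ P} 1/p^2 ≤ 2/P`; `p^2 ≤ pal < b^(2M+1)`. -/
def S_SQ : Prop := ∀ M : ℕ, 1 ≤ M → ∀ θ : ℝ, 0 < θ → ∃ δ : ℝ, 0 < δ ∧ ∃ b0 : ℕ, ∀ b : ℕ, b0 ≤ b →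
  (((A b M).filter fun a => ∃ p : ℕ, p.Prime ∧ (b : ℝ) ^ θ ≤ p ∧ p ^ 2 ∣ pal b M a).card : ℝ) ≤
    (b : ℝ) ^ ((M : ℝ) + 1 - δ)

end Pool.Agent.Zk46.FD
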