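import Pool.Agent.Zk46.FD.Lev2
import Pool.Agent.Zk46.FD.Fin
import Pool.Agent.Zk46.FD.Fin3
import Pool.Agent.Zk46.NP2.SV
import Pool.Agent.Zk95.FD46.GOOD
import Pool.Agent.Zk25.FD46.BADQ
import Pool.Agent.Zk25.FD46.HYP
import Pool.Agent.Zk95.FD46.CUBE
import Pool.Agent.Zk69.FD46.SHELL
import Pool.Agent.Zk20.FD46.DIG
import Pool.Agent.Zk67.FD46.NV
import Pool.Agent.Zk67.FD46.PIG
import Pool.Agent.Zk55.FD46.SQ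
import Pool.Agent.Zk43.FD46.SQ0
import Pool.Agent.Zk63.FD46.SQ1
import Pool.Agent.Zk63.FD46.SQ2
import Pool.Agent.Zk78.FD46.SQ3

/-! Palindromes with few digits and at most two prime factors: all modules together (helper46). -/

set_option autoImplicit false

namespace Pool.Agent.Zk46.FD

open Finset

open Classical in
/-- all modules together -/
theorem few (M : ℕ) (hM : 1 ≤ M) (hM5 : M ≤ 5) : ∃ c : ℝ, 0 < c ∧ ∃ b₀ : ℕ, ∀ b : ℕ, b₀ ≤ b →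
      c * (b : ℝ) ^ (M + 1) / Real.log b ≤
        ((Ico (b ^ (2 * M)) (b ^ (2 * M + 1))).filter fun n : ℕ =>
          (∀ j ≤ 2 * M, n / b ^ j % b = n / b ^ (2 * M - j) % b) ∧ n.primeFactorsList.length ≤ 2 ∧
            ∀ p : ℕ, p.Prime → p ∣ n → n < p ^ 8).card :=
  fin1 (t_LEV Pool.Agent.Zk95.FD46.t_GOOD (Pool.Agent.Zk25.FD46.t_BADQ Pool.Agent.Zk25.FD46.t_HYP Pool.Agent.Zk95.FD46.t_CUBE)
    Pool.Agent.Zk67.FD46.t_PIG Pool.Agent.Zk69.FD46.t_SHELL Pool.Agent.Zk67.FD46.t_NV)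
    (Pool.Agent.Zk55.FD46.t_SQ Pool.Agent.Zk43.FD46.t_SQ0 Pool.Agent.Zk63.FD46.t_SQ1 Pool.Agent.Zk63.FD46.t_SQ2
      Pool.Agent.Zk78.FD46.t_SQ3 Pool.Agent.Zk20.FD46.t_DIG)
    Pool.Agent.Zk20.FD46.t_DIG Pool.Agent.Zk46.NP2.sv_main M hM hM5

open Classical in
/-- all modules together, digits in intervals -/
theorem fewBoxes (M : ℕ) (hM : 1 ≤ M) (hM5 : M ≤ 5) : ∃ η : ℝ, 0 < η ∧ ∃ c : ℝ, 0 < c ∧ ∃ b₀ : ℕ, ∀ b : ℕ, b₀ ≤ b →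
      ∀ l B : Fin (M + 1) → ℕ, (∀ j, 1 ≤ l j ∧ (b : ℝ) ^ (1 - η) ≤ B j ∧ l j + B j ≤ b) →
      c * (∏ j, (B j : ℝ)) / Real.log b ≤
        ((Ico (b ^ (2 * M)) (b ^ (2 * M + 1))).filter fun n : ℕ =>
          (∀ j ≤ 2 * M, n / b ^ j % b = n / b ^ (2 * M - j) % b) ∧
          (∀ j : Fin (M + 1), l j ≤ n / b ^ (j : ℕ) % b ∧ n / b ^ (j : ℕ) % b < l j + B j) ∧
          n.primeFactorsList.length ≤ 2 ∧ ∀ p : ℕ, p.Prime → p ∣ n → n < p ^ 8).card :=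
  boxes (t_LEV2 Pool.Agent.Zk95.FD46.t_GOOD (Pool.Agent.Zk25.FD46.t_BADQ Pool.Agent.Zk25.FD46.t_HYP Pool.Agent.Zk95.FD46.t_CUBE)
    Pool.Agent.Zk67.FD46.t_PIG Pool.Agent.Zk69.FD46.t_SHELL Pool.Agent.Zk67.FD46.t_NV)
    (Pool.Agent.Zk55.FD46.t_SQ Pool.Agent.Zk43.FD46.t_SQ0 Pool.Agent.Zk63.FD46.t_SQ1 Pool.Agent.Zk63.FD46.t_SQ2
      Pool.Agent.Zk78.FD46.t_SQ3 Pool.Agent.Zk20.FD46.t_DIG)
    Pool.Agent.Zk20.FD46.t_DIG Pool.Agent.Zk46.NP2.sv_main M hM hM5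

end Pool.Agent.Zk46.FD
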