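import Pool.Agent.Zk46.FD.Defs
import Pool.Agent.Zk46.NP2.SVDefs
import Pool.Agent.K3h19.RV.Num

/-!
# Palindromes with few digits and at most two prime factors: the sieve
-/

set_option autoImplicit false

namespace Pool.Agent.Zk46.FD

open Finset Filter Topology
open Pool.Agent.W23.DC (tt pr)
open Pool.Agent.Y882.KW (WW almost)

theorem lam_two' : 11 / 6 < Pool.Agent.K3h19.RV.Lam 2 ∧ Pool.Agent.K3h19.RV.Lam 2 ≤ 2 := by
  unfold Pool.Agent.K3h19.RV.Lam
  have hL0 : 0 < Real.log 3 := by linarith [Pool.Agent.K3h19.RV.log3_pos]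
  have h1 : (5 : ℝ) / 6 < Real.log ((3 ^ 2 + 1) / 4) / Real.log 3 := by
    rw [lt_div_iff₀ hL0]
    have h1 : Real.log ((3 : ℝ) ^ 5) < Real.log (((3 ^ 2 + 1) / 4 : ℝ) ^ 6) :=
      Real.log_lt_log (by norm_num) (by norm_num)
    rw [Real.log_pow, Real.log_pow] at h1
    push_cast at h1
    linarith
  have h2 : Real.log ((3 ^ 2 + 1) / 4) / Real.log 3 ≤ 1 := by
    rw [div_le_one hL0]
    exact Real.log_le_log (by norm_num) (by norm_num)
  constructor <;> linarith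

/-- the digits of `w` -/
def dg {d r : ℕ} (w : Fin d → Fin r → ℕ) (j : Fin d) : ℕ := 1 + ∑ k, w j k

lemma card_W (d r s : ℕ) : (W d r s).card = s ^ (r * d) := by
  unfold W
  rw [Fintype.card_piFinset, prod_const, Fintype.card_piFinset, prod_const, card_range, card_univ, card_univ,
    Fintype.card_fin, Fintype.card_fin, ← pow_mul]

lemma mem_W {d r s : ℕ} {w : Fin d → Fin r → ℕ} : w ∈ W d r s ↔ ∀ j k, w j k < s := by
  unfold W
  simp [Fintype.mem_piFinset]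

open Classical in
lemma fib (d r s : ℕ) (S : Finset (Fin d → Fin (r + 1) → ℕ)) (hS : S ⊆ W d (r + 1) s) :
    S.card ≤ s ^ (r * d) * (S.image dg).card := by
  apply Finset.card_le_mul_card_image
  intro a _
  rw [← card_W]
  apply Finset.card_le_card_of_injOn (fun w j k => w j (Fin.succ k))
  · intro w hw
    rw [mem_coe, mem_filter] at hw
    rw [mem_coe, mem_W]
    intro j k
    exact mem_W.1 (hS hw.1) j _
  · intro w hw w' hw' he
    rw [mem_coe, mem_filter] at hw hw'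
    funext j k
    have h1 : ∀ k : Fin r, w j (Fin.succ k) = w' j (Fin.succ k) := fun k => congrFun (congrFun he j) k
    refine Fin.cases ?_ h1 k
    have h2 : dg w j = dg w' j := by rw [hw.2, hw'.2]
    unfold dg at h2
    rw [Fin.sum_univ_succ, Fin.sum_univ_succ, sum_congr rfl (fun k _ => h1 k)] at h2
    omega

lemma val_eq (b M r : ℕ) (w : Fin (M + 1) → Fin r → ℕ) :
    val (cf b M) (∑ j, cf b M j) w = pal b M (dg w) := by
  unfold val pal dg
  rw [← sum_add_distrib]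
  apply sum_congr rfl
  intro j _
  ring

open Classical in
theorem main (hLEV : S_LEV) (hSQ : S_SQ) (hDIG : S_DIG) (hSV : Pool.Agent.Zk46.NP2.S_SV) (M : ℕ) (hM : 1 ≤ M)
    (hM5 : M ≤ 5) : ∃ c : ℝ, 0 < c ∧ ∃ b0 : ℕ, ∀ b : ℕ, b0 ≤ b → ∃ G : Finset (Fin (M + 1) → ℕ), G ⊆ A b M ∧
      c * (b : ℝ) ^ (M + 1) / Real.log b ≤ G.card ∧ ∀ a ∈ G,
        (pal b M a).primeFactorsList.length ≤ 2 ∧ ∀ p : ℕ, p.Prime → p ∣ pal b M a → pal b M a < p ^ 8 := by
  obtain ⟨hl1, hl2⟩ := lam_two'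
  set Λ : ℝ := Pool.Agent.K3h19.RV.Lam 2 with hΛ
  have hΛ0 : 0 < Λ := by linarith
  have hinv1 : 1 / Λ < 6 / 11 := by rw [div_lt_div_iff₀ hΛ0 (by norm_num)]; linarith
  have hinv2 : 1 / 2 ≤ 1 / Λ := one_div_le_one_div_of_le hΛ0 hl2
  set σ : ℝ := (1 / Λ + 6 / 11) / 2 with hσ
  have hσ1 : 1 / Λ < σ := by rw [hσ]; linarith
  have hσ2 : σ < 6 / 11 := by rw [hσ]; linarith
  set σ' : ℝ := (σ + 6 / 11) / 2 with hσ'
  have hσσ' : σ < σ' := by rw [hσ']; linarith
  have hσ'2 : σ' < 6 / 11 := by rw [hσ']; linarith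
  have hσ0 : 0 < σ := by linarith
  obtain ⟨υ, lam, S, hυ1, hυ2, hlam, hS, hr, hJ⟩ := Pool.Agent.K3h19.RV.richert 2 (by norm_num) σ hσ0 (by
    rw [div_lt_iff₀ hΛ0] at hσ1
    linarith)
  have hυ0 : 0 < υ := by linarith
  obtain ⟨δ, hδ, Y0, hsv⟩ := hSV 1 (by norm_num) σ (σ / 4) υ lam σ' (by linarith) (by linarith) (by linarith)
    (by linarith) hυ1 hυ2 hlam hJ hσσ'
  have hMR : (1 : ℝ) ≤ M := by exact_mod_cast hM
  have hMR5 : (M : ℝ) ≤ 5 := by exact_mod_cast hM5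
  have hgap : 0 < (M : ℝ) + 1 - (2 * M + 1) * σ' := by nlinarith
  set ε : ℝ := min (1 / 2) ((M : ℝ) + 1 - (2 * M + 1) * σ') with hε
  have hε0 : 0 < ε := lt_min (by norm_num) hgap
  have hε1 : ε < 1 := lt_of_le_of_lt (min_le_left _ _) (by norm_num)
  have hε2 : (2 * M + 1) * σ' ≤ (M : ℝ) + 1 - ε := by
    have := min_le_right (1 / 2) ((M : ℝ) + 1 - (2 * M + 1) * σ')
    linarith
  obtain ⟨r, hr1, δ1, hδ1, b1, hlev⟩ := hLEV M hM ε hε0 hε1
  obtain ⟨r', rfl⟩ : ∃ r', r = r' + 1 := ⟨r - 1, by omega⟩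
  obtain ⟨δ2, hδ2, b2, hsq⟩ := hSQ M hM ((2 * M + 1) * (σ / 4)) (by positivity)
  set R : ℝ := 2 * ((r' + 1 : ℕ) : ℝ) with hR
  have hR0 : 0 < R := by positivity
  set f : ℝ := δ / ((2 * M + 1) * R ^ (M + 1)) with hf
  have hf0 : 0 < f := by positivity
  -- for large `b`
  have t1 : Tendsto (fun x : ℝ => 5 * (2 * M + 1) * (Real.log x ^ 2 / x ^ δ1) + Real.log x / x ^ δ2) atTop (𝓝 0) := by
    have e1 : Tendsto (fun x : ℝ => Real.log x ^ (2 : ℝ) / x ^ δ1) atTop (𝓝 0) :=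
      (isLittleO_log_rpow_rpow_atTop 2 hδ1).tendsto_div_nhds_zero
    have e2 : Tendsto (fun x : ℝ => Real.log x / x ^ δ2) atTop (𝓝 0) :=
      (isLittleO_log_rpow_atTop hδ2).tendsto_div_nhds_zero
    have e3 := (e1.const_mul (5 * (2 * (M : ℝ) + 1))).add e2
    simp only [mul_zero, add_zero] at e3
    refine e3.congr fun x => ?_
    norm_num
  have t2 : ∀ᶠ b : ℕ in atTop, 5 * (2 * M + 1) * (Real.log (b : ℝ) ^ 2 / (b : ℝ) ^ δ1) +
      Real.log (b : ℝ) / (b : ℝ) ^ δ2 < f / 2 :=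
    (t1.comp tendsto_natCast_atTop_atTop).eventually_lt_const (by positivity)
  obtain ⟨b3, hb3⟩ := eventually_atTop.1 t2
  refine ⟨f / 2, by positivity, max (max b1 b2) (max b3 (max Y0 (2 * (r' + 1) + 2))), fun b hb => ?_⟩
  have k1 : b1 ≤ b := ((le_max_left _ _).trans (le_max_left _ _)).trans hb
  have k2 : b2 ≤ b := ((le_max_right _ _).trans (le_max_left _ _)).trans hb
  have k3 : b3 ≤ b := ((le_max_left _ _).trans (le_max_right _ _)).trans hb
  have k4 : Y0 ≤ b := (((le_max_left _ _).trans (le_max_right _ _)).trans (le_max_right _ _)).trans hb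
  have k5 : 2 * (r' + 1) + 2 ≤ b := (((le_max_right _ _).trans (le_max_right _ _)).trans (le_max_right _ _)).trans hb
  have hb2 : 2 ≤ b := by omega
  have hbR : (2 : ℝ) ≤ b := by exact_mod_cast hb2
  have hb0 : (0 : ℝ) < b := by linarith
  have hb1' : (1 : ℝ) ≤ b := by linarith
  have hlb : 0 < Real.log b := Real.log_pos (by linarith)
  set Y : ℕ := b ^ (2 * M + 1) with hY
  have hYR : (Y : ℝ) = (b : ℝ) ^ ((2 * (M : ℝ) + 1)) := by
    rw [hY]
    push_cast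
    rw [← Real.rpow_natCast]
    push_cast
    rfl
  have hbY : b ≤ Y := by
    calc b = b ^ 1 := (pow_one b).symm
      _ ≤ b ^ (2 * M + 1) := Nat.pow_le_pow_right (by omega) (by omega)
  have hY2 : 2 ≤ Y := hb2.trans hbY
  have hlY : Real.log Y = (2 * (M : ℝ) + 1) * Real.log b := by rw [hYR, Real.log_rpow hb0]
  have hlY0 : 0 < Real.log Y := by rw [hlY]; positivity
  set s : ℕ := (b - 1) / (r' + 1) with hs
  have hsl : (b : ℝ) / R ≤ s := by
    have h1 : b - 1 < (r' + 1) * (s + 1) := by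
      rw [hs]
      exact Nat.lt_mul_div_succ _ (by omega)
    have h2 : b ≤ (r' + 1) * (s + 1) := by omega
    have h3 : (b : ℝ) ≤ ((r' + 1 : ℕ) : ℝ) * (s + 1) := by exact_mod_cast h2
    have h4 : (2 * ((r' + 1 : ℕ) : ℝ) + 2) ≤ b := by exact_mod_cast k5
    rw [div_le_iff₀ hR0, hR]
    nlinarith
  have hsu : (r' + 1) * s ≤ b - 1 := by rw [hs]; exact Nat.mul_div_le _ _
  have hs0 : (0 : ℝ) < s := lt_of_lt_of_le (by positivity) hsl
  have hs1 : 1 ≤ s := by exact_mod_cast hs0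
  have hsb : (s : ℝ) ≤ b := by
    have : s ≤ b := by
      have : 1 * s ≤ (r' + 1) * s := Nat.mul_le_mul_right _ (by omega)
      omega
    exact_mod_cast this
  -- the digits
  have hdgA : ∀ w ∈ W (M + 1) (r' + 1) s, dg w ∈ A b M := by
    intro w hw
    unfold A
    rw [Fintype.mem_piFinset]
    intro j
    rw [mem_Ico]
    unfold dg
    have h1 : ∑ k, w j k ≤ ∑ _k : Fin (r' + 1), (s - 1) := by
      apply sum_le_sum
      intro k _
      have := mem_W.1 hw j k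
      omega
    rw [sum_const, card_univ, Fintype.card_fin, smul_eq_mul] at h1
    have h2 : (r' + 1) * (s - 1) < (r' + 1) * s := by
      apply Nat.mul_lt_mul_of_pos_left _ (by omega)
      omega
    omega
  have hdgb : ∀ w ∈ W (M + 1) (r' + 1) s, ∀ j, dg w j < b := by
    intro w hw j
    have h1 := Fintype.mem_piFinset.1 (hdgA w hw) j
    rw [mem_Ico] at h1
    exact h1.2
  set n0 : ℕ := ∑ j, cf b M j with hn0
  set v : (Fin (M + 1) → Fin (r' + 1) → ℕ) → ℕ := fun w => val (cf b M) n0 w with hv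
  have hvp : ∀ w, v w = pal b M (dg w) := fun w => val_eq b M (r' + 1) w
  set X : ℝ := (s : ℝ) ^ ((r' + 1) * (M + 1)) with hX
  have hXW : ((W (M + 1) (r' + 1) s).card : ℝ) = X := by rw [card_W]; push_cast; rfl
  have hX0 : 0 < X := by positivity
  have hsv' := hsv Y (k4.trans hbY) (Fin (M + 1) → Fin (r' + 1) → ℕ) (W (M + 1) (r' + 1) s) v
    (fun w _ => Nat.coprime_one_right _)
  have hYσ : (Y : ℝ) ^ σ' ≤ (b : ℝ) ^ ((M : ℝ) + 1 - ε) := by
    rw [hYR, ← Real.rpow_mul hb0.le]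
    exact Real.rpow_le_rpow_of_exponent_le hb1' hε2
  have hrem : ∑ q ∈ (Icc 1 ⌊(Y : ℝ) ^ σ'⌋₊).filter (fun q => q.Coprime 1),
      |(((W (M + 1) (r' + 1) s).filter (fun i => q ∣ v i)).card : ℝ) - (W (M + 1) (r' + 1) s).card / q| ≤
        X * (b : ℝ) ^ (-δ1) := by
    refine le_trans ?_ (hlev b k1 n0)
    have hsub : (Icc 1 ⌊(Y : ℝ) ^ σ'⌋₊).filter (fun q => q.Coprime 1) ⊆ Icc 1 ⌊(b : ℝ) ^ ((M : ℝ) + 1 - ε)⌋₊ := by
      intro q hq
      rw [mem_filter, mem_Icc] at hq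
      rw [mem_Icc]
      exact ⟨hq.1.1, hq.1.2.trans (Nat.floor_le_floor hYσ)⟩
    refine le_trans (sum_le_sum_of_subset_of_nonneg hsub fun _ _ _ => abs_nonneg _) (le_of_eq ?_)
    apply sum_congr rfl
    intro q _
    rw [hXW, hX]
    unfold cnt
    congr!
  set W1 := (W (M + 1) (r' + 1) s).filter (fun i => 0 < WW Y (σ / 4) υ lam (lam / υ) (v i)) with hW1
  set θ : ℝ := (2 * M + 1) * (σ / 4) with hθ
  set B := (W (M + 1) (r' + 1) s).filter (fun w => ∃ p : ℕ, p.Prime ∧ (b : ℝ) ^ θ ≤ p ∧ p ^ 2 ∣ v w) with hB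
  have hWc : δ * X / Real.log Y - 5 * Real.log Y * (X * (b : ℝ) ^ (-δ1)) ≤ W1.card := by
    refine le_trans ?_ hsv'
    rw [hXW] at hrem ⊢
    have := mul_le_mul_of_nonneg_left hrem (show 0 ≤ 5 * Real.log Y by positivity)
    linarith
  -- few bad vectors
  set F : ℕ := s ^ (r' * (M + 1)) with hF
  have hFR : (F : ℝ) = (s : ℝ) ^ (r' * (M + 1)) := by rw [hF]; push_cast; rfl
  have hF0 : (0 : ℝ) < F := by rw [hFR]; positivity
  have hXF : X = F * (s : ℝ) ^ (M + 1) := by rw [hX, hFR, ← pow_add]; congr 1; ring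
  have hBc : (B.card : ℝ) ≤ F * (b : ℝ) ^ ((M : ℝ) + 1 - δ2) := by
    have h1 : B.card ≤ F * (B.image dg).card := fib (M + 1) r' s B (filter_subset _ _)
    have h2 : B.image dg ⊆ (A b M).filter (fun a => ∃ p : ℕ, p.Prime ∧ (b : ℝ) ^ θ ≤ p ∧ p ^ 2 ∣ pal b M a) := by
      intro a ha
      rw [mem_image] at ha
      obtain ⟨w, hw, rfl⟩ := ha
      rw [hB, mem_filter] at hw
      rw [mem_filter]
      refine ⟨hdgA w hw.1, ?_⟩
      rw [← hvp]
      exact hw.2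
    have h3 : ((B.image dg).card : ℝ) ≤ (b : ℝ) ^ ((M : ℝ) + 1 - δ2) := by
      refine le_trans ?_ (hsq b k2)
      exact_mod_cast card_le_card h2
    calc (B.card : ℝ) ≤ F * (B.image dg).card := by exact_mod_cast h1
      _ ≤ _ := mul_le_mul_of_nonneg_left h3 hF0.le
  refine ⟨(W1 \ B).image dg, ?_, ?_, ?_⟩
  · intro a ha
    rw [mem_image] at ha
    obtain ⟨w, hw, rfl⟩ := ha
    rw [Finset.mem_sdiff] at hw
    exact hdgA w (mem_filter.1 hw.1).1
  · have h1 : (W1.card : ℝ) - B.card ≤ ((W1 \ B).card : ℝ) := by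
      have h2 : W1.card ≤ (W1 \ B).card + B.card := by
        have := Finset.le_card_sdiff B W1
        omega
      have h3 : (W1.card : ℝ) ≤ (W1 \ B).card + B.card := by exact_mod_cast h2
      linarith
    have h2 : ((W1 \ B).card : ℝ) ≤ F * (((W1 \ B).image dg).card : ℝ) := by
      have := fib (M + 1) r' s (W1 \ B) ((sdiff_subset).trans (filter_subset _ _))
      exact_mod_cast this
    have h3 : δ * X / Real.log Y - 5 * Real.log Y * (X * (b : ℝ) ^ (-δ1)) - F * (b : ℝ) ^ ((M : ℝ) + 1 - δ2) ≤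
        F * (((W1 \ B).image dg).card : ℝ) := by linarith
    have h4 : δ * (s : ℝ) ^ (M + 1) / Real.log Y - 5 * Real.log Y * ((s : ℝ) ^ (M + 1) * (b : ℝ) ^ (-δ1)) -
        (b : ℝ) ^ ((M : ℝ) + 1 - δ2) ≤ (((W1 \ B).image dg).card : ℝ) := by
      rw [hXF] at h3
      have e1 : δ * (F * (s : ℝ) ^ (M + 1)) / Real.log Y - 5 * Real.log Y * (F * (s : ℝ) ^ (M + 1) * (b : ℝ) ^ (-δ1)) -
          F * (b : ℝ) ^ ((M : ℝ) + 1 - δ2) = F * (δ * (s : ℝ) ^ (M + 1) / Real.log Y -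
            5 * Real.log Y * ((s : ℝ) ^ (M + 1) * (b : ℝ) ^ (-δ1)) - (b : ℝ) ^ ((M : ℝ) + 1 - δ2)) := by ring
      rw [e1] at h3
      exact le_of_mul_le_mul_left h3 hF0
    refine le_trans ?_ h4
    set U : ℝ := (b : ℝ) ^ (M + 1) with hU
    have hU0 : 0 < U := by positivity
    have hsU : U / R ^ (M + 1) ≤ (s : ℝ) ^ (M + 1) := by
      rw [hU, ← div_pow]
      exact pow_le_pow_left₀ (by positivity) hsl _
    have hsU' : (s : ℝ) ^ (M + 1) ≤ U := pow_le_pow_left₀ hs0.le hsb _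
    have q1 : f * U / Real.log b ≤ δ * (s : ℝ) ^ (M + 1) / Real.log Y := by
      have e1 : f * U / Real.log b = δ * (U / R ^ (M + 1)) / Real.log Y := by
        rw [hf, hlY]; field_simp
      rw [e1]
      gcongr
    have q2 : 5 * Real.log Y * ((s : ℝ) ^ (M + 1) * (b : ℝ) ^ (-δ1)) + (b : ℝ) ^ ((M : ℝ) + 1 - δ2) ≤
        f / 2 * U / Real.log b := by
      have e1 : (b : ℝ) ^ ((M : ℝ) + 1 - δ2) = U * (b : ℝ) ^ (-δ2) := by
        rw [hU, ← Real.rpow_natCast, ← Real.rpow_add hb0]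
        congr 1
        push_cast
        ring
      have e2 := (hb3 b k3).le
      have e3 : 5 * Real.log Y * ((s : ℝ) ^ (M + 1) * (b : ℝ) ^ (-δ1)) ≤ 5 * Real.log Y * (U * (b : ℝ) ^ (-δ1)) := by
        gcongr
      refine (add_le_add e3 e1.le).trans ?_
      rw [le_div_iff₀ hlb, hlY, Real.rpow_neg hb0.le, Real.rpow_neg hb0.le]
      calc (5 * ((2 * (M : ℝ) + 1) * Real.log b) * (U * ((b : ℝ) ^ δ1)⁻¹) + U * ((b : ℝ) ^ δ2)⁻¹) * Real.log b
          = U * (5 * (2 * M + 1) * (Real.log (b : ℝ) ^ 2 / (b : ℝ) ^ δ1) + Real.log (b : ℝ) / (b : ℝ) ^ δ2) := by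
            field_simp
        _ ≤ U * (f / 2) := mul_le_mul_of_nonneg_left e2 hU0.le
        _ = f / 2 * U := by ring
    have q3 : f * U / Real.log b = f / 2 * U / Real.log b + f / 2 * U / Real.log b := by ring
    linarith
  · intro a ha
    rw [mem_image] at ha
    obtain ⟨w, hw, rfl⟩ := ha
    rw [Finset.mem_sdiff, hW1, mem_filter] at hw
    obtain ⟨⟨hm1, hm2⟩, hm3⟩ := hw
    obtain ⟨d1, d2, d3⟩ := hDIG b M hb2 hM (dg w) (hdgb w hm1)
    have d4 : b ^ (2 * M) ≤ pal b M (dg w) := d3 (by unfold dg; omega)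
    have hpos : pal b M (dg w) ≠ 0 := by
      have : 0 < b ^ (2 * M) := by positivity
      omega
    have hal := almost Y hY2 (σ / 4) υ lam S 2 hυ1 hυ0 (by linarith) hlam (by exact_mod_cast hr) (pal b M (dg w)) hpos (by
        have h1 : ((pal b M (dg w) : ℕ) : ℝ) ≤ Y := by exact_mod_cast d2.le
        refine h1.trans ?_
        calc (Y : ℝ) = (Y : ℝ) ^ (1 : ℝ) := (Real.rpow_one _).symm
          _ ≤ (Y : ℝ) ^ S := Real.rpow_le_rpow_of_exponent_le (by exact_mod_cast (by omega : 1 ≤ Y)) hS.le)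
      (by rw [← hvp]; exact hm2) (by
        intro q hq hqd
        apply hm3
        rw [hB, mem_filter]
        unfold pr at hq
        rw [mem_filter] at hq
        obtain ⟨hq1, hq2, hq3, hq4⟩ := hq
        have hqζ : (Y : ℝ) ^ (σ / 4) ≤ q := by
          by_contra h
          push Not at h
          exact absurd hq3 (not_le.2 ((Pool.Agent.Y882.tt_lt Y q (σ / 4) hY2 hq2.pos).2 h))
        refine ⟨hm1, q, hq2, ?_, by rw [hvp]; exact hqd⟩
        rw [hYR, ← Real.rpow_mul hb0.le] at hqζ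
        exact hqζ)
    refine ⟨hal.1, fun p hp hpd => ?_⟩
    have h1 := hal.2 p hp hpd
    have hY1 : (1 : ℝ) ≤ Y := by exact_mod_cast (by omega : 1 ≤ Y)
    have h2 : (Y : ℝ) ^ (1 / 8 : ℝ) ≤ p := by
      refine le_trans ?_ h1
      apply Real.rpow_le_rpow_of_exponent_le hY1
      linarith
    have h3 : (Y : ℝ) ≤ (p : ℝ) ^ 8 := by
      calc (Y : ℝ) = ((Y : ℝ) ^ (1 / 8 : ℝ)) ^ 8 := by
            rw [← Real.rpow_natCast, ← Real.rpow_mul (by positivity)]
            norm_num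
        _ ≤ _ := pow_le_pow_left₀ (by positivity) h2 8
    have h4 : Y ≤ p ^ 8 := by exact_mod_cast h3
    omega

end Pool.Agent.Zk46.FD
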