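import Pool.Agent.Zk46.FD.Lev2

/-! The level of distribution of the palindromes with few digits, for digits in intervals. -/

set_option autoImplicit false

namespace Pool.Agent.Zk46.FD

open Finset Filter Topology

/-- the level of distribution, for digits in intervals of length about `r s` -/
def S_LEV2 : Prop := ∀ M : ℕ, 1 ≤ M → ∀ ε : ℝ, 0 < ε → ε < 1 → ∃ r : ℕ, 1 ≤ r ∧ ∃ δ : ℝ, 0 < δ ∧ ∃ η : ℝ, 0 < η ∧
  ∃ b0 : ℕ, ∀ b : ℕ, b0 ≤ b → ∀ s : ℕ, (b : ℝ) ^ (1 - η) ≤ 2 * r * s → r * s ≤ b →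
  ∀ n0 : ℕ, ∑ q ∈ Icc 1 ⌊(b : ℝ) ^ ((M : ℝ) + 1 - ε)⌋₊,
    |cnt (cf b M) n0 r s q - (s : ℝ) ^ (r * (M + 1)) / q| ≤ (s : ℝ) ^ (r * (M + 1)) * (b : ℝ) ^ (-δ)

theorem t_LEV2 (hGOOD : S_GOOD) (hBADQ : S_BADQ) (hPIG : S_PIG) (hSHELL : S_SHELL) (hNV : S_NV) : S_LEV2 := by
  intro M hM ε hε hε1
  set d : ℕ := M + 1 with hd
  have hd1 : 1 ≤ d := by omega
  have hdR : (1 : ℝ) ≤ d := by exact_mod_cast hd1
  have hd2 : (2 : ℝ) ≤ d := by rw [hd]; exact_mod_cast (by omega : 2 ≤ M + 1)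
  set e : ℝ := ε / (4 * d) with he
  have he0 : 0 < e := by positivity
  have hed : ε / d = 4 * e := by rw [he]; field_simp
  have he1 : e < 1 / 8 := by
    rw [he, div_lt_iff₀ (by positivity)]
    nlinarith
  set η : ℝ := e / (2 * d) with hη
  have hη0 : 0 < η := by positivity
  have hdη : d * η = e / 2 := by rw [hη]; field_simp
  have hηe : η ≤ e / 2 := by nlinarith
  set r : ℕ := ⌈((d : ℝ) + 2) / (e / 2)⌉₊ with hr
  have hr1 : 1 ≤ r := by
    rw [hr, Nat.one_le_ceil_iff]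
    positivity
  have hre : (d : ℝ) + 2 ≤ e / 2 * r := by
    have := Nat.le_ceil (((d : ℝ) + 2) / (e / 2))
    rw [← hr, div_le_iff₀ (by positivity)] at this
    linarith
  have hrR : (1 : ℝ) ≤ r := by exact_mod_cast hr1
  obtain ⟨C, hC, hdiv⟩ := Pool.Agent.Helper112.divisor_bound (e / (2 * M + 3)) (by positivity)
  set K : ℝ := (2 * r) ^ d * (3 * d) ^ (d - 1) * 3 ^ d * (2 * d * 3 ^ (d - 1)) with hK
  have hK0 : 0 < K := by positivity
  have evN : ∀ x : ℝ, ∀ a : ℝ, 0 < a → ∀ᶠ b : ℕ in atTop, x ≤ (b : ℝ) ^ a := fun x a ha =>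
    ((tendsto_rpow_atTop ha).comp tendsto_natCast_atTop_atTop).eventually_ge_atTop _
  obtain ⟨b0, hb0⟩ := eventually_atTop.1 ((((evN (2 * (2 * r) ^ r) 1 one_pos).and (evN (4 * d * K * C) (e / 2) (by positivity))).and
    ((evN (2 * (1 + d)) (1 - e) (by linarith)).and (evN (2 * d) (3 * e) (by positivity)))).and
    ((evN (2 * r + 2) 1 one_pos).and (evN (2 * d) 1 one_pos)))
  refine ⟨r, hr1, e, he0, η, hη0, max b0 2, fun b hb s hsl' hsu' n0 => ?_⟩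
  obtain ⟨⟨⟨g1, g2⟩, g3, g4⟩, g5, g6⟩ := hb0 b ((le_max_left _ _).trans hb)
  have hb2 : 2 ≤ b := (le_max_right _ _).trans hb
  rw [Real.rpow_one] at g1 g5 g6
  have hbR : (2 : ℝ) ≤ b := by exact_mod_cast hb2
  have hbp : (0 : ℝ) < b := by linarith
  have hb1 : (1 : ℝ) ≤ b := by linarith
  have hsl : (b : ℝ) ^ (1 - η) / (2 * r) ≤ s := by
    rw [div_le_iff₀ (by positivity)]
    linarith
  have hsu : (r : ℝ) * s ≤ b := by exact_mod_cast hsu'
  have hs0 : (0 : ℝ) < s := lt_of_lt_of_le (by positivity) hsl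
  have hs1 : 1 ≤ s := by exact_mod_cast hs0
  have hsb : (s : ℝ) ≤ b := by nlinarith
  -- the parameters
  set H : ℕ := ⌊(b : ℝ) ^ (1 - e)⌋₊ with hH
  set h : ℕ := H / d with hh
  set D : ℕ := ⌊(b : ℝ) ^ ((M : ℝ) + 1 - ε)⌋₊ with hD
  set m : ℕ := ⌊(b : ℝ) ^ (1 - ε / d)⌋₊ with hm
  have hHu : (H : ℝ) ≤ (b : ℝ) ^ (1 - e) := Nat.floor_le (by positivity)
  have hHl : (b : ℝ) ^ (1 - e) < H + 1 := Nat.lt_floor_add_one _
  have hhl : (b : ℝ) ^ (1 - e) / (2 * d) ≤ h := by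
    have h1 : H < d * (h + 1) := by rw [hh]; exact Nat.lt_mul_div_succ _ (by omega)
    have h2 : H + 1 ≤ d * (h + 1) := h1
    have h3 : (H : ℝ) + 1 ≤ d * (h + 1) := by exact_mod_cast h2
    rw [div_le_iff₀ (by positivity)]
    nlinarith
  have hdh : d * h ≤ H := by rw [hh]; exact Nat.mul_div_le _ _
  have hh0 : (0 : ℝ) < h := lt_of_lt_of_le (by positivity) hhl
  have hh1 : 1 ≤ h := by exact_mod_cast hh0
  have hhb : (h : ℝ) ≤ b := by
    have h1 : (h : ℝ) ≤ H := by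
      have : h ≤ H := by rw [hh]; exact Nat.div_le_self _ _
      exact_mod_cast this
    have h2 : (b : ℝ) ^ (1 - e) ≤ (b : ℝ) ^ (1 : ℝ) := Real.rpow_le_rpow_of_exponent_le hb1 (by linarith)
    rw [Real.rpow_one] at h2
    linarith
  have hmu : (m : ℝ) ≤ (b : ℝ) ^ (1 - 4 * e) := by rw [← hed]; exact Nat.floor_le (by positivity)
  have hm1 : 1 ≤ m := by
    rw [hm, Nat.one_le_floor_iff]
    apply Real.one_le_rpow hb1
    rw [hed]
    linarith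
  have hmh : m ≤ h := by
    have h1 : (b : ℝ) ^ (1 - 4 * e) ≤ (b : ℝ) ^ (1 - e) / (2 * d) := by
      rw [le_div_iff₀ (by positivity)]
      calc (b : ℝ) ^ (1 - 4 * e) * (2 * d) ≤ (b : ℝ) ^ (1 - 4 * e) * (b : ℝ) ^ (3 * e) :=
            mul_le_mul_of_nonneg_left g4 (by positivity)
        _ = (b : ℝ) ^ (1 - e) := by rw [← Real.rpow_add hbp]; congr 1; ring
    exact_mod_cast (hmu.trans h1).trans hhl
  have hmb : (m : ℝ) < b := by
    refine lt_of_le_of_lt hmu ?_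
    calc (b : ℝ) ^ (1 - 4 * e) < (b : ℝ) ^ (1 : ℝ) :=
          Real.rpow_lt_rpow_of_exponent_lt (by linarith) (by linarith)
      _ = b := Real.rpow_one _
  have hmb' : m < b := by exact_mod_cast hmb
  have hMd : (M : ℝ) + 1 = d := by rw [hd]; push_cast; ring
  have hDm : D < (m + 1) ^ d := by
    have h1 : (D : ℝ) ≤ (b : ℝ) ^ ((M : ℝ) + 1 - ε) := Nat.floor_le (by positivity)
    have h2 : (b : ℝ) ^ (1 - ε / d) < m + 1 := Nat.lt_floor_add_one _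
    have h3 : (b : ℝ) ^ ((M : ℝ) + 1 - ε) = ((b : ℝ) ^ (1 - ε / d)) ^ d := by
      rw [← Real.rpow_natCast, ← Real.rpow_mul hbp.le, hMd]
      congr 1
      field_simp
    have h4 : ((b : ℝ) ^ (1 - ε / d)) ^ d < ((m : ℝ) + 1) ^ d :=
      pow_lt_pow_left₀ h2 (by positivity) (by omega)
    rw [h3] at h1
    exact_mod_cast h1.trans_lt h4
  set T : ℝ := C * (b : ℝ) ^ e with hT
  have hT' : ∀ v : Fin d → ℤ, v ≠ 0 → nm v ≤ m → ∑ j, (cf b M j : ℤ) * v j ≠ 0 ∧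
      (((∑ j, (cf b M j : ℤ) * v j).natAbs.divisors.card : ℕ) : ℝ) ≤ T := by
    intro v hv hvm
    have h1 := (hNV b M hb2 hM).1 v hv (by omega)
    refine ⟨h1, ?_⟩
    have h2 := form_le b M (by omega) (by
      have : (2 * ((M : ℝ) + 1)) ≤ b := by rw [hMd]; exact g6
      exact_mod_cast this) v (by omega)
    have h3 : 1 ≤ (∑ j, (cf b M j : ℤ) * v j).natAbs := by omega
    refine (hdiv _ h3).trans ?_
    rw [hT]
    apply mul_le_mul_of_nonneg_left _ hC.le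
    have h4 : (((∑ j, (cf b M j : ℤ) * v j).natAbs : ℕ) : ℝ) ≤ (b : ℝ) ^ (2 * M + 3) := by exact_mod_cast h2
    refine (Real.rpow_le_rpow (by positivity) h4 (by positivity)).trans (le_of_eq ?_)
    rw [← Real.rpow_natCast, ← Real.rpow_mul hbp.le]
    congr 1
    push_cast
    field_simp
  have hmain := lev1 hGOOD hBADQ hPIG hSHELL d r s (cf b M) n0 H h D m T hd1 hr1 hs1 hh1 hdh
    (hNV b M hb2 hM).2 hm1 hmh hDm hT'
  refine hmain.trans ?_
  set X : ℝ := (s : ℝ) ^ (r * d) with hX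
  have hX0 : 0 < X := by positivity
  have hDu : (D : ℝ) ≤ (b : ℝ) ^ (d : ℝ) := by
    refine (Nat.floor_le (by positivity)).trans ?_
    apply Real.rpow_le_rpow_of_exponent_le hb1
    linarith
  -- first part
  have p1 : (D : ℝ) * (X * ((H : ℝ) / s) ^ r) ≤ X * (b : ℝ) ^ (-e) / 2 := by
    have h1 : (H : ℝ) / s ≤ 2 * r * (b : ℝ) ^ (-(e / 2)) := by
      rw [div_le_iff₀ hs0]
      have h2 : (b : ℝ) ^ (1 - e) ≤ (b : ℝ) ^ (-(e / 2)) * (b : ℝ) ^ (1 - η) := by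
        rw [← Real.rpow_add hbp]
        exact Real.rpow_le_rpow_of_exponent_le hb1 (by linarith)
      calc (H : ℝ) ≤ (b : ℝ) ^ (1 - e) := hHu
        _ ≤ (b : ℝ) ^ (-(e / 2)) * (b : ℝ) ^ (1 - η) := h2
        _ = 2 * r * (b : ℝ) ^ (-(e / 2)) * ((b : ℝ) ^ (1 - η) / (2 * r)) := by field_simp
        _ ≤ _ := mul_le_mul_of_nonneg_left hsl (by positivity)
    have h2 : ((H : ℝ) / s) ^ r ≤ (2 * r) ^ r * (b : ℝ) ^ (-((d : ℝ) + 2)) := by
      calc ((H : ℝ) / s) ^ r ≤ (2 * r * (b : ℝ) ^ (-(e / 2))) ^ r := pow_le_pow_left₀ (by positivity) h1 r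
        _ = (2 * r) ^ r * (b : ℝ) ^ (-(e / 2 * r)) := by
            rw [mul_pow, ← Real.rpow_natCast ((b : ℝ) ^ (-(e / 2))), ← Real.rpow_mul hbp.le, neg_mul]
        _ ≤ _ := by
            apply mul_le_mul_of_nonneg_left _ (by positivity)
            exact Real.rpow_le_rpow_of_exponent_le hb1 (by linarith)
    calc (D : ℝ) * (X * ((H : ℝ) / s) ^ r) ≤ (b : ℝ) ^ (d : ℝ) * (X * ((2 * r) ^ r * (b : ℝ) ^ (-((d : ℝ) + 2)))) := by
          gcongr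
      _ = X * (2 * r) ^ r * ((b : ℝ) ^ (d : ℝ) * (b : ℝ) ^ (-((d : ℝ) + 2))) := by ring
      _ = X * (2 * r) ^ r * (b : ℝ) ^ (-2 : ℝ) := by
          rw [← Real.rpow_add hbp]
          congr 2
          ring
      _ ≤ X * (b / 2) * (b : ℝ) ^ (-2 : ℝ) := by
          gcongr
          linarith
      _ = X * (b : ℝ) ^ (-1 : ℝ) / 2 := by
          rw [show (b : ℝ) ^ (-1 : ℝ) = (b : ℝ) * (b : ℝ) ^ (-2 : ℝ) by
            conv_rhs => rw [← Real.rpow_one (b : ℝ), Real.rpow_one (b : ℝ)]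
            rw [show (-1 : ℝ) = 1 + -2 by norm_num, Real.rpow_add hbp, Real.rpow_one]]
          ring
      _ ≤ X * (b : ℝ) ^ (-e) / 2 := by
          have : (b : ℝ) ^ (-1 : ℝ) ≤ (b : ℝ) ^ (-e) := Real.rpow_le_rpow_of_exponent_le hb1 (by linarith)
          gcongr
  -- second part
  have p2 : (s : ℝ) ^ ((r - 1) * d) * (3 * d * h : ℝ) ^ (d - 1) * (((r : ℝ) * s / h + 1) ^ d + ((s : ℝ) / h) ^ d) *
        (T * (2 * d * 3 ^ (d - 1) * m)) ≤ X * (b : ℝ) ^ (-e) / 2 := by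
    have h1 : (s : ℝ) ^ ((r - 1) * d) ≤ X * ((2 * r) ^ d / ((b : ℝ) ^ (1 - η)) ^ d) := by
      have e1 : X = (s : ℝ) ^ ((r - 1) * d) * (s : ℝ) ^ d := by
        rw [hX, ← pow_add]
        congr 1
        obtain ⟨r', hr'⟩ : ∃ r', r = r' + 1 := ⟨r - 1, by omega⟩
        rw [hr']
        simp
        ring
      rw [e1, mul_assoc]
      apply le_mul_of_one_le_right (by positivity)
      rw [← div_pow, ← mul_pow]
      apply one_le_pow₀
      calc (1 : ℝ) = ((b : ℝ) ^ (1 - η) / (2 * r)) * (2 * r / (b : ℝ) ^ (1 - η)) := by field_simp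
        _ ≤ s * (2 * r / (b : ℝ) ^ (1 - η)) := mul_le_mul_of_nonneg_right hsl (by positivity)
    have h2 : ((r : ℝ) * s / h + 1) ^ d + ((s : ℝ) / h) ^ d ≤ 3 ^ d * (b : ℝ) ^ d / (h : ℝ) ^ d := by
      have h3 : (r : ℝ) * s / h + 1 ≤ 2 * (b / h) := by
        have h4 : (r : ℝ) * s / h ≤ b / h := div_le_div_of_nonneg_right hsu hh0.le
        have h5 : 1 ≤ (b : ℝ) / h := by rw [le_div_iff₀ hh0]; linarith
        linarith
      have h4 : (s : ℝ) / h ≤ b / h := div_le_div_of_nonneg_right hsb hh0.le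
      have h5 : 0 ≤ (b : ℝ) / h := by positivity
      calc ((r : ℝ) * s / h + 1) ^ d + ((s : ℝ) / h) ^ d ≤ (2 * (b / h)) ^ d + ((b : ℝ) / h) ^ d := by
            gcongr
        _ ≤ (2 * (b / h) + b / h) ^ d := pow_add_pow_le (by positivity) (by positivity) (by omega)
        _ = 3 ^ d * (b : ℝ) ^ d / (h : ℝ) ^ d := by
            rw [show (2 : ℝ) * (b / h) + b / h = 3 * b / h by ring, div_pow, mul_pow]
    have h3 : T * (m : ℝ) / h ≤ 2 * d * C * (b : ℝ) ^ (-(2 * e)) := by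
      have h4 : (m : ℝ) / h ≤ 2 * d * (b : ℝ) ^ (-(3 * e)) := by
        rw [div_le_iff₀ hh0]
        calc (m : ℝ) ≤ (b : ℝ) ^ (1 - 4 * e) := hmu
          _ = (b : ℝ) ^ (-(3 * e)) * (b : ℝ) ^ (1 - e) := by rw [← Real.rpow_add hbp]; congr 1; ring
          _ = 2 * d * (b : ℝ) ^ (-(3 * e)) * ((b : ℝ) ^ (1 - e) / (2 * d)) := by field_simp
          _ ≤ _ := mul_le_mul_of_nonneg_left hhl (by positivity)
      calc T * (m : ℝ) / h = T * (m / h) := by ring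
        _ ≤ T * (2 * d * (b : ℝ) ^ (-(3 * e))) := mul_le_mul_of_nonneg_left h4 (by positivity)
        _ = 2 * d * C * ((b : ℝ) ^ e * (b : ℝ) ^ (-(3 * e))) := by rw [hT]; ring
        _ = _ := by rw [← Real.rpow_add hbp]; congr 2; ring
    have hpow : (h : ℝ) ^ (d - 1) * (m / (h : ℝ) ^ d) = m / h := by
      obtain ⟨d', hd'⟩ : ∃ d', d = d' + 1 := ⟨M, hd⟩
      rw [hd', Nat.add_sub_cancel, pow_succ]
      field_simp
    have hbd : (b : ℝ) ^ d / ((b : ℝ) ^ (1 - η)) ^ d = (b : ℝ) ^ (e / 2) := by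
      rw [← div_pow, ← Real.rpow_natCast, ← hdη]
      have e1 : (b : ℝ) / (b : ℝ) ^ (1 - η) = (b : ℝ) ^ η := by
        rw [div_eq_iff (by positivity), ← Real.rpow_add hbp]
        rw [show η + (1 - η) = 1 by ring, Real.rpow_one]
      rw [e1, ← Real.rpow_mul hbp.le]
      congr 1
      ring
    calc (s : ℝ) ^ ((r - 1) * d) * (3 * d * h : ℝ) ^ (d - 1) * (((r : ℝ) * s / h + 1) ^ d + ((s : ℝ) / h) ^ d) *
          (T * (2 * d * 3 ^ (d - 1) * m))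
        ≤ (X * ((2 * r) ^ d / ((b : ℝ) ^ (1 - η)) ^ d)) * (3 * d * h : ℝ) ^ (d - 1) *
          (3 ^ d * (b : ℝ) ^ d / (h : ℝ) ^ d) * (T * (2 * d * 3 ^ (d - 1) * m)) := by gcongr
      _ = X * K * ((b : ℝ) ^ d / ((b : ℝ) ^ (1 - η)) ^ d) * (T * ((h : ℝ) ^ (d - 1) * (m / (h : ℝ) ^ d))) := by
          rw [hK, mul_pow (3 * (d : ℝ)) (h : ℝ)]
          ring
      _ = X * K * (b : ℝ) ^ (e / 2) * (T * m / h) := by rw [hpow, hbd]; ring
      _ ≤ X * K * (b : ℝ) ^ (e / 2) * (2 * d * C * (b : ℝ) ^ (-(2 * e))) := mul_le_mul_of_nonneg_left h3 (by positivity)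
      _ = X * (4 * d * K * C) * ((b : ℝ) ^ (e / 2) * (b : ℝ) ^ (-(2 * e))) / 2 := by ring
      _ ≤ X * (b : ℝ) ^ (e / 2) * ((b : ℝ) ^ (e / 2) * (b : ℝ) ^ (-(2 * e))) / 2 := by gcongr
      _ = X * ((b : ℝ) ^ (e / 2) * ((b : ℝ) ^ (e / 2) * (b : ℝ) ^ (-(2 * e)))) / 2 := by ring
      _ = X * (b : ℝ) ^ (-e) / 2 := by rw [← Real.rpow_add hbp, ← Real.rpow_add hbp]; congr 3; ring
  linarith

end Pool.Agent.Zk46.FD
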