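import Pool.Agent.Zk46.FD.Defs

/-! The level of distribution: summation over the moduli. -/

set_option autoImplicit false

namespace Pool.Agent.Zk46.FD

open Finset

open Classical in
theorem exists_min (hPIG : S_PIG) {d : ℕ} (c : Fin d → ℕ) (q : ℕ) (hd : 1 ≤ d) (hq : 1 ≤ q) :
    ∃ v : Fin d → ℤ, v ≠ 0 ∧ InL c q v ∧ nm v ^ d ≤ q ∧ ∀ u : Fin d → ℤ, u ≠ 0 → InL c q u → nm v ≤ nm u := by
  obtain ⟨v0, h1, h2, h3⟩ := hPIG d c q hd hq
  let P : ℕ → Prop := fun k => ∃ v : Fin d → ℤ, v ≠ 0 ∧ InL c q v ∧ nm v = k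
  have hP : ∃ k, P k := ⟨nm v0, v0, h1, h2, rfl⟩
  obtain ⟨v, hv1, hv2, hv3⟩ := Nat.find_spec hP
  have hmin : ∀ u : Fin d → ℤ, u ≠ 0 → InL c q u → nm v ≤ nm u := by
    intro u hu1 hu2
    rw [hv3]
    exact Nat.find_min' hP ⟨u, hu1, hu2, rfl⟩
  exact ⟨v, hv1, hv2, (Nat.pow_le_pow_left (hmin v0 h1 h2) d).trans h3, hmin⟩

lemma nm_pos {d : ℕ} {v : Fin d → ℤ} (hv : v ≠ 0) : 1 ≤ nm v := by
  obtain ⟨j, hj⟩ := Function.ne_iff.1 hv
  have h1 : (v j).natAbs ≤ nm v := Finset.le_sup (f := fun j => (v j).natAbs) (mem_univ j)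
  have h2 : 1 ≤ (v j).natAbs := by
    have : v j ≠ 0 := hj
    omega
  omega

lemma mem_box {d : ℕ} {v : Fin d → ℤ} {m : ℕ} (hv : nm v ≤ m) : v ∈ Fintype.piFinset fun _ : Fin d => Icc (-(m : ℤ)) m := by
  rw [Fintype.mem_piFinset]
  intro j
  have h1 : (v j).natAbs ≤ nm v := Finset.le_sup (f := fun j => (v j).natAbs) (mem_univ j)
  rw [mem_Icc]
  omega

open Classical in
/-- the sum over the moduli -/
theorem lev1 (hGOOD : S_GOOD) (hBADQ : S_BADQ) (hPIG : S_PIG) (hSHELL : S_SHELL)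
    (d r s : ℕ) (c : Fin d → ℕ) (n0 H h D m : ℕ) (T : ℝ) (hd : 1 ≤ d) (hr : 1 ≤ r) (hs : 1 ≤ s) (hh : 1 ≤ h)
    (hdh : d * h ≤ H) (hprim : Prim c) (hm1 : 1 ≤ m) (hmh : m ≤ h) (hDm : D < (m + 1) ^ d)
    (hT : ∀ v : Fin d → ℤ, v ≠ 0 → nm v ≤ m → ∑ j, (c j : ℤ) * v j ≠ 0 ∧
      (((∑ j, (c j : ℤ) * v j).natAbs.divisors.card : ℕ) : ℝ) ≤ T) :
    ∑ q ∈ Icc 1 D, |cnt c n0 r s q - (s : ℝ) ^ (r * d) / q| ≤
      D * ((s : ℝ) ^ (r * d) * ((H : ℝ) / s) ^ r) +
      (s : ℝ) ^ ((r - 1) * d) * (3 * d * h : ℝ) ^ (d - 1) * (((r : ℝ) * s / h + 1) ^ d + ((s : ℝ) / h) ^ d) *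
        (T * (2 * d * 3 ^ (d - 1) * m)) := by
  have hH : 1 ≤ H := by nlinarith
  have hsR : (0 : ℝ) < s := by exact_mod_cast hs
  have hhR : (0 : ℝ) < h := by exact_mod_cast hh
  set K : ℝ := (s : ℝ) ^ ((r - 1) * d) * (3 * d * h : ℝ) ^ (d - 1) *
    (((r : ℝ) * s / h + 1) ^ d + ((s : ℝ) / h) ^ d) with hK
  have hK0 : 0 ≤ K := by positivity
  have hex : ∀ q : ℕ, ∃ v : Fin d → ℤ, 1 ≤ q → (v ≠ 0 ∧ InL c q v ∧ nm v ^ d ≤ q ∧
      ∀ u : Fin d → ℤ, u ≠ 0 → InL c q u → nm v ≤ nm u) := by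
    intro q
    by_cases hq : 1 ≤ q
    · obtain ⟨v, hv⟩ := exists_min hPIG c q hd hq
      exact ⟨v, fun _ => hv⟩
    · exact ⟨0, fun h => absurd h hq⟩
  choose V hV using hex
  have hVm : ∀ q ∈ Icc 1 D, nm (V q) ≤ m := by
    intro q hq
    rw [mem_Icc] at hq
    obtain ⟨h1, h2, h3, h4⟩ := hV q hq.1
    by_contra hcon
    push Not at hcon
    have h5 : (m + 1) ^ d ≤ nm (V q) ^ d := Nat.pow_le_pow_left hcon d
    omega
  have hper : ∀ q ∈ Icc 1 D, |cnt c n0 r s q - (s : ℝ) ^ (r * d) / q| ≤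
      (s : ℝ) ^ (r * d) * ((H : ℝ) / s) ^ r + K * (1 / (nm (V q) : ℝ) ^ (d - 1)) := by
    intro q hq
    have hm := hVm q hq
    rw [mem_Icc] at hq
    obtain ⟨h1, h2, h3, h4⟩ := hV q hq.1
    have hqR : (0 : ℝ) < q := by exact_mod_cast hq.1
    have hR1 := nm_pos h1
    have hRR : (0 : ℝ) < nm (V q) := by exact_mod_cast hR1
    by_cases hg : Good c q H
    · have := hGOOD d r s c n0 q H hq.1 hs hH hg
      have h6 : 0 ≤ K * (1 / (nm (V q) : ℝ) ^ (d - 1)) := by positivity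
      linarith
    · obtain ⟨h6, h7⟩ := hBADQ d r s c n0 q H h (nm (V q)) hd hr hs hq.1 hh hdh hprim hg hR1 (hm.trans hmh) h4
      have h8 : 0 ≤ cnt c n0 r s q := by unfold cnt; positivity
      have h9 : (0 : ℝ) ≤ (s : ℝ) ^ (r * d) / q := by positivity
      have h10 : (s : ℝ) ^ (r * d) / q ≤ (s : ℝ) ^ ((r - 1) * d) *
          (((s : ℝ) / h) ^ d * (3 * d * h / (nm (V q) : ℕ) : ℝ) ^ (d - 1)) := by
        have e1 : (s : ℝ) ^ (r * d) = (s : ℝ) ^ ((r - 1) * d) * (s : ℝ) ^ d := by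
          rw [← pow_add]
          congr 1
          obtain ⟨r', rfl⟩ : ∃ r', r = r' + 1 := ⟨r - 1, by omega⟩
          simp
          ring
        rw [e1, div_le_iff₀ hqR, div_pow]
        have h11 : (1 : ℝ) ≤ 1 / (h : ℝ) ^ d * (q * (3 * d * h / (nm (V q) : ℕ) : ℝ) ^ (d - 1)) := by
          rw [one_div, inv_mul_eq_div, le_div_iff₀ (by positivity), one_mul]
          exact h7
        calc (s : ℝ) ^ ((r - 1) * d) * (s : ℝ) ^ d = ((s : ℝ) ^ ((r - 1) * d) * (s : ℝ) ^ d) * 1 := (mul_one _).symm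
          _ ≤ ((s : ℝ) ^ ((r - 1) * d) * (s : ℝ) ^ d) *
              (1 / (h : ℝ) ^ d * (q * (3 * d * h / (nm (V q) : ℕ) : ℝ) ^ (d - 1))) :=
            mul_le_mul_of_nonneg_left h11 (by positivity)
          _ = _ := by ring
      have h12 : K * (1 / (nm (V q) : ℝ) ^ (d - 1)) = (s : ℝ) ^ ((r - 1) * d) *
          (((r : ℝ) * s / h + 1) ^ d * (3 * d * h / (nm (V q) : ℕ) : ℝ) ^ (d - 1)) +
          (s : ℝ) ^ ((r - 1) * d) * (((s : ℝ) / h) ^ d * (3 * d * h / (nm (V q) : ℕ) : ℝ) ^ (d - 1)) := by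
        rw [hK, div_pow]
        ring
      have h13 : (0 : ℝ) ≤ (s : ℝ) ^ (r * d) * ((H : ℝ) / s) ^ r := by positivity
      rw [h12, abs_le]
      constructor <;> linarith
  have hsum : ∑ q ∈ Icc 1 D, (1 / (nm (V q) : ℝ) ^ (d - 1)) ≤ T * (2 * d * 3 ^ (d - 1) * m) := by
    set B := (Fintype.piFinset fun _ : Fin d => Icc (-(m : ℤ)) m).filter (fun v => v ≠ 0) with hB
    have hmaps : ∀ q ∈ Icc 1 D, V q ∈ B := by
      intro q hq
      rw [hB, mem_filter]
      exact ⟨mem_box (hVm q hq), (hV q (mem_Icc.1 hq).1).1⟩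
    rw [← sum_fiberwise_of_maps_to hmaps]
    have hfib : ∀ v ∈ B, ∑ q ∈ (Icc 1 D).filter (fun q => V q = v), (1 / (nm (V q) : ℝ) ^ (d - 1)) ≤
        T * (1 / (nm v : ℝ) ^ (d - 1)) := by
      intro v hv
      have e1 : ∑ q ∈ (Icc 1 D).filter (fun q => V q = v), (1 / (nm (V q) : ℝ) ^ (d - 1)) =
          ((Icc 1 D).filter (fun q => V q = v)).card * (1 / (nm v : ℝ) ^ (d - 1)) := by
        rw [← nsmul_eq_mul, ← sum_const]
        apply sum_congr rfl
        intro q hq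
        rw [(mem_filter.1 hq).2]
      rw [e1]
      have hv0 : v ≠ 0 := (mem_filter.1 hv).2
      apply mul_le_mul_of_nonneg_right _ (by positivity)
      rcases ((Icc 1 D).filter (fun q => V q = v)).eq_empty_or_nonempty with h0 | ⟨q0, hq0⟩
      · rw [h0]
        have hvm : nm v ≤ m := by
          unfold nm
          apply Finset.sup_le
          intro j _
          have := Fintype.mem_piFinset.1 (mem_filter.1 hv).1 j
          rw [mem_Icc] at this
          omega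
        have := (hT v hv0 hvm).2
        have h2 : (0 : ℝ) ≤ (((∑ j, (c j : ℤ) * v j).natAbs.divisors.card : ℕ) : ℝ) := by positivity
        simp only [card_empty, Nat.cast_zero]
        linarith
      · have hvm : nm v ≤ m := by
          rw [mem_filter] at hq0
          rw [← hq0.2]
          exact hVm q0 hq0.1
        obtain ⟨hL0, hLT⟩ := hT v hv0 hvm
        refine le_trans ?_ hLT
        have hsub : (Icc 1 D).filter (fun q => V q = v) ⊆ (∑ j, (c j : ℤ) * v j).natAbs.divisors := by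
          intro q hq
          rw [mem_filter, mem_Icc] at hq
          have h5 := (hV q hq.1.1).2.1
          rw [hq.2] at h5
          rw [Nat.mem_divisors]
          refine ⟨?_, by simpa using hL0⟩
          unfold InL at h5
          exact Int.natCast_dvd.1 h5
        exact_mod_cast card_le_card hsub
    refine (sum_le_sum hfib).trans ?_
    rw [← mul_sum]
    have hT0 : 0 ≤ T := by
      have hv : (fun _ => 1 : Fin d → ℤ) ≠ 0 := by
        intro h0
        have := congrFun h0 ⟨0, by omega⟩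
        simp at this
      have hnm : nm (fun _ => 1 : Fin d → ℤ) ≤ m := by
        unfold nm
        apply Finset.sup_le
        intro j _
        simpa using hm1
      exact le_trans (by positivity) (hT _ hv hnm).2
    exact mul_le_mul_of_nonneg_left (hSHELL d m hd) hT0
  refine (sum_le_sum hper).trans ?_
  rw [sum_add_distrib, sum_const, Nat.card_Icc, Nat.add_sub_cancel, nsmul_eq_mul, ← mul_sum]
  have := mul_le_mul_of_nonneg_left hsum hK0
  linarith

end Pool.Agent.Zk46.FD
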